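import Pool.Agent.H50.NC.Targets

/-!
# Row RB: exactly one rung in `S`
-/

set_option autoImplicit false

namespace Pool.Agent.H46.NCK

open Pool.Agent.H48.ER Pool.Agent.H50.NC

namespace RBX

variable {V : Type} {G : SimpleGraph V}

/-- the last vertex is outside of `S` and everything else is inside: exit at distance `0` from the
other end -/
theorem ex_zero {S P : Set V} {b : V} (hb : b ∉ S) (hbP : b ∈ P) : Ex G S P b 0 b :=
  ⟨{b}, IP.zero b, by simpa using hbP, hb, fun v hv => Or.inl (by simpa using hv)⟩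

theorem no_one (hPAA : T_PAA) (hPAF : T_PAF) {a b : Fin 3 → V} {n : Fin 3 → ℕ} {P : Fin 3 → Set V}
    {S X : Set V} (hE : EPr G a b n P) (hS : SX G S X) (h0 : P 0 ⊆ S) {i j : Fin 3} (hij : i ≠ j)
    (hi : i ≠ 0) (hj : j ≠ 0) (hB : Bx S (P i) (b i)) {r s : ℕ} {x y : V}
    (hy : Ex G S (P i) (a i) s y) (hyb : y = b i ↔ s = n i) (hyP : y ∈ P i)
    (hx : Ex G S (P j) (a j) r x) (hxP : x ∈ P j) (hxb : x ≠ b j) : False := by
  have hyS : y ∉ S := by obtain ⟨R, _, _, h, _⟩ := hy; exact h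
  have hyb' : y = b i := by
    rcases hB.2 y hyP with h | h
    · exact h
    · exact absurd h hyS
  have hs : s = n i := hyb.1 hyb'
  subst hyb'
  have haS : a i ∈ S := by
    rcases hB.2 (a i) (hE.1.a_mem i) with h | h
    · exact absurd h (hE.1.a_ne_b i i)
    · exact h
  have hna : ¬ G.Adj (b i) x := by
    intro h
    rw [hE.1.adj i j hij _ (hE.1.b_mem i) _ hxP] at h
    rcases h with h | h
    · exact hE.1.a_ne_b i i h.1.symm
    · exact hxb h.2
  have h1 := hPAA V G a b n P i j S X s r (b i) x hE hS hij hy hx (Or.inl haS) hna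
  have h2 := hPAF V G a b n P j i 0 S X r 0 x (b i) hE hS hij.symm hj.symm hi.symm h0 hx
    (ex_zero hB.1 (hE.1.b_mem i)) hxb (hE.1.a_ne_b i i).symm
  have h3 := hE.2 i
  rw [hs] at h1
  rw [Nat.odd_add] at h1
  rw [add_zero] at h2
  exact (Nat.not_odd_iff_even.2 h3) (h1.2 h2)

theorem both (hEXT : T_EXT) (hPAA : T_PAA) (hPAF : T_PAF) (hDB : T_DB) {a b : Fin 3 → V}
    {n : Fin 3 → ℕ} {P : Fin 3 → Set V} {S X : Set V} (hE : EPr G a b n P) (hS : SX G S X)
    (h0 : P 0 ⊆ S) (h1 : ¬ P 1 ⊆ S) (h2 : ¬ P 2 ⊆ S)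
    (hB : Bx S (P 1) (b 1) ∨ Bx S (P 2) (b 2)) : Sm G S := by
  obtain ⟨r1, x1, e1, -, p1, b1, -, B1⟩ := hEXT V G (n 1) (a 1) (b 1) (P 1) S (hE.1.ip 1) h1
  obtain ⟨r2, x2, e2, -, p2, b2, -, B2⟩ := hEXT V G (n 2) (a 2) (b 2) (P 2) S (hE.1.ip 2) h2
  rcases hB with hB | hB
  · by_cases h : x2 = b 2
    · exact hDB V G a b n P S X hE hS h0 hB (B2 h)
    · exact (no_one hPAA hPAF hE hS h0 (by decide) (by decide) (by decide) hB e1 b1 p1 e2 p2 h).elim
  · by_cases h : x1 = b 1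
    · exact hDB V G a b n P S X hE hS h0 (B1 h) hB
    · exact (no_one hPAA hPAF hE hS h0 (by decide) (by decide) (by decide) hB e2 b2 p2 e1 p1 h).elim

/-- the exit of a rung is a neighbour of `S` -/
theorem nb_exit {a b : Fin 3 → V} {n : Fin 3 → ℕ} {P : Fin 3 → Set V} {S : Set V}
    (hE : EPr G a b n P) (h0 : P 0 ⊆ S) {i : Fin 3} (hi : i ≠ 0) {r : ℕ} {x : V}
    (hx : Ex G S (P i) (a i) r x) : Nb G S x := by
  obtain ⟨R, hR, hRP, hxS, hRS⟩ := hx
  refine ⟨hxS, ?_⟩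
  rcases r with _ | r
  · obtain ⟨e, _⟩ := hR.eq_of_zero
    refine ⟨a 0, h0 (hE.1.a_mem 0), ?_⟩
    rw [← e]
    exact hE.1.a_adj hi
  · obtain ⟨y, hxy, hy, _, _⟩ := hR.rev.tail
    refine ⟨y, ?_, hxy⟩
    rcases hRS y hy with h | h
    · exact absurd h hxy.ne'
    · exact h

end RBX

open RBX

theorem pf_RB (hEXT : T_EXT) (hPAA : T_PAA) (hPAF : T_PAF) (hPSF : T_PSF) (hDB : T_DB) :
    T_RB := by
  intro V G a b n P S X hO hN hE hS h0 h1 h2
  have hF : EPr G b a n P := ⟨hE.1.flip, hE.2⟩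
  obtain ⟨r1, x1, e1, -, p1, b1, z1, B1⟩ := hEXT V G (n 1) (a 1) (b 1) (P 1) S (hE.1.ip 1) h1
  obtain ⟨r2, x2, e2, -, p2, b2, z2, B2⟩ := hEXT V G (n 2) (a 2) (b 2) (P 2) S (hE.1.ip 2) h2
  obtain ⟨t1, w1, f1, -, q1, a1, y1, A1⟩ := hEXT V G (n 1) (b 1) (a 1) (P 1) S (hF.1.ip 1) h1
  obtain ⟨t2, w2, f2, -, q2, a2, y2, A2⟩ := hEXT V G (n 2) (b 2) (a 2) (P 2) S (hF.1.ip 2) h2
  by_cases hx1 : x1 = b 1
  · exact Or.inr (both hEXT hPAA hPAF hDB hE hS h0 h1 h2 (Or.inl (B1 hx1)))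
  by_cases hx2 : x2 = b 2
  · exact Or.inr (both hEXT hPAA hPAF hDB hE hS h0 h1 h2 (Or.inr (B2 hx2)))
  by_cases hw1 : w1 = a 1
  · exact Or.inr (both hEXT hPAA hPAF hDB hF hS h0 h1 h2 (Or.inl (A1 hw1)))
  by_cases hw2 : w2 = a 2
  · exact Or.inr (both hEXT hPAA hPAF hDB hF hS h0 h1 h2 (Or.inr (A2 hw2)))
  have g1 := hPAF V G a b n P 1 2 0 S X r1 t2 x1 w2 hE hS (by decide) (by decide) (by decide) h0
    e1 f2 hx1 hw2
  have g2 := hPAF V G a b n P 2 1 0 S X r2 t1 x2 w1 hE hS (by decide) (by decide) (by decide) h0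
    e2 f1 hx2 hw1
  -- membership of the corners
  have ca1 : a 1 ∉ S → r1 = 0 := by
    intro h
    obtain ⟨R, hR, _, _, hRS⟩ := e1
    rcases hRS _ hR.left_mem with h' | h'
    · exact z1.1 h'.symm
    · exact absurd h' h
  have ca2 : a 2 ∉ S → r2 = 0 := by
    intro h
    obtain ⟨R, hR, _, _, hRS⟩ := e2
    rcases hRS _ hR.left_mem with h' | h'
    · exact z2.1 h'.symm
    · exact absurd h' h
  have cb1 : b 1 ∉ S → t1 = 0 := by
    intro h
    obtain ⟨R, hR, _, _, hRS⟩ := f1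
    rcases hRS _ hR.left_mem with h' | h'
    · exact y1.1 h'.symm
    · exact absurd h' h
  have cb2 : b 2 ∉ S → t2 = 0 := by
    intro h
    obtain ⟨R, hR, _, _, hRS⟩ := f2
    rcases hRS _ hR.left_mem with h' | h'
    · exact y2.1 h'.symm
    · exact absurd h' h
  have xS1 : x1 ∉ S := by obtain ⟨R, _, _, h, _⟩ := e1; exact h
  have xS2 : x2 ∉ S := by obtain ⟨R, _, _, h, _⟩ := e2; exact h
  have wS1 : w1 ∉ S := by obtain ⟨R, _, _, h, _⟩ := f1; exact h
  have wS2 : w2 ∉ S := by obtain ⟨R, _, _, h, _⟩ := f2; exact h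
  by_cases hA : a 1 ∉ S ∧ a 2 ∉ S
  · left
    have r10 := ca1 hA.1
    have r20 := ca2 hA.2
    subst r10 r20
    rw [zero_add] at g1 g2
    have hB : b 1 ∉ S ∧ b 2 ∉ S := by
      by_contra hB
      have hB' : b 1 ∈ S ∨ b 2 ∈ S := by
        by_contra h
        push Not at h
        exact hB h
      by_cases hw : G.Adj w1 w2
      · rw [hE.1.adj 1 2 (by decide) _ q1 _ q2] at hw
        rcases hw with h | h
        · exact hw1 h.1
        · rw [h.1] at wS1
          rw [h.2] at wS2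
          exact hB ⟨wS1, wS2⟩
      · have := hPAA V G b a n P 1 2 S X t1 t2 w1 w2 hF hS (by decide) f1 f2 hB' hw
        rw [Nat.odd_add] at this
        exact (Nat.not_odd_iff_even.2 g2) (this.2 g1)
    exact ⟨a, b, n, P, hE, h0, hA.1, hA.2, hB.1, hB.2⟩
  · have hA' : a 1 ∈ S ∨ a 2 ∈ S := by
      by_contra h
      push Not at h
      exact hA h
    have hx : ¬ G.Adj x1 x2 := by
      intro hx
      rw [hE.1.adj 1 2 (by decide) _ p1 _ p2] at hx
      rcases hx with h | h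
      · rw [h.1] at xS1
        rw [h.2] at xS2
        exact hA ⟨xS1, xS2⟩
      · exact hx1 h.1
    have g3 := hPAA V G a b n P 1 2 S X r1 r2 x1 x2 hE hS (by decide) e1 e2 hA' hx
    have s1 : Odd (r1 + t1) := by
      rw [Nat.odd_add] at g3 ⊢
      rw [Nat.even_add] at g1 g2
      rw [g3, g2]
    have s2 : Odd (r2 + t2) := by
      rw [Nat.odd_add] at g3 ⊢
      rw [Nat.even_add] at g1 g2
      constructor
      · intro h
        rw [← g1]
        by_contra h'
        rw [Nat.not_even_iff_odd] at h'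
        exact (Nat.not_odd_iff_even.2 (g3.1 h')) h
      · intro h
        by_contra h'
        rw [Nat.not_odd_iff_even] at h'
        exact (Nat.not_odd_iff_even.2 (g1.2 h)) (g3.2 h')
    have c1 : ∀ v ∈ P 1, v = x1 ∨ v = w1 ∨ v ∈ S := by
      by_contra h
      have := hPSF V G a b n P 1 0 S X r1 t1 x1 w1 hE hS (by decide) h0 e1 f1 (fun h' => h h'.2.2)
      exact (Nat.not_odd_iff_even.2 this) s1
    have c2 : ∀ v ∈ P 2, v = x2 ∨ v = w2 ∨ v ∈ S := by
      by_contra h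
      have := hPSF V G a b n P 2 0 S X r2 t2 x2 w2 hE hS (by decide) h0 e2 f2 (fun h' => h h'.2.2)
      exact (Nat.not_odd_iff_even.2 this) s2
    have nx1 := nb_exit hE h0 (by decide) e1
    have nx2 := nb_exit hE h0 (by decide) e2
    have nw1 := nb_exit hF h0 (by decide) f1
    have nw2 := nb_exit hF h0 (by decide) f2
    have hXn : ∀ v, Nb G S v → v ∉ X := by
      rintro v ⟨_, s, hs, hvs⟩ hv
      exact (hS.ne s hs v hv).2 hvs.symm
    have hdis : Disjoint X (ver P) := by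
      rw [Set.disjoint_left]
      rintro v hv ⟨i, hi⟩
      have hvS : v ∉ S := fun h => (hS.ne v h v hv).1 rfl
      fin_cases i
      · exact hvS (h0 hi)
      · rcases c1 v hi with h | h | h
        · exact hXn _ nx1 (h ▸ hv)
        · exact hXn _ nw1 (h ▸ hv)
        · exact hvS h
      · rcases c2 v hi with h | h | h
        · exact hXn _ nx2 (h ▸ hv)
        · exact hXn _ nw2 (h ▸ hv)
        · exact hvS h
    obtain ⟨d1, hd1, hd1'⟩ := hS.att x1 nx1
    obtain ⟨d2, hd2, hd2'⟩ := hS.att x2 nx2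
    have hPLL := c_PLL V G a b n P X hO hN hE hS.cX hdis
      ⟨1, 2, by decide, ⟨d1, hd1, x1, p1, hd1'.symm⟩, ⟨d2, hd2, x2, p2, hd2'.symm⟩⟩
    have hout : ∀ v, (∃ d ∈ X, G.Adj d v) → v ∉ S := by
      rintro v ⟨d, hd, hdv⟩ hv
      exact (hS.ne v hv d hd).2 hdv.symm
    exfalso
    rcases hPLL with ⟨i, j, hij, hi, hj⟩ | ⟨i, j, hij, hi, hj⟩
    · have ki := hout _ hi
      have kj := hout _ hj
      have hi0 : i ≠ 0 := fun e => ki (h0 (e ▸ hE.1.a_mem i))
      have hj0 : j ≠ 0 := fun e => kj (h0 (e ▸ hE.1.a_mem j))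
      apply hA
      fin_cases i <;> fin_cases j
      · exact absurd rfl hi0
      · exact absurd rfl hi0
      · exact absurd rfl hi0
      · exact absurd rfl hj0
      · exact absurd rfl hij
      · exact ⟨ki, kj⟩
      · exact absurd rfl hj0
      · exact ⟨kj, ki⟩
      · exact absurd rfl hij
    · have ki := hout _ hi
      have kj := hout _ hj
      have hi0 : i ≠ 0 := fun e => ki (h0 (e ▸ hE.1.b_mem i))
      have hj0 : j ≠ 0 := fun e => kj (h0 (e ▸ hE.1.b_mem j))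
      have hBB : b 1 ∉ S ∧ b 2 ∉ S := by
        fin_cases i <;> fin_cases j
        · exact absurd rfl hi0
        · exact absurd rfl hi0
        · exact absurd rfl hi0
        · exact absurd rfl hj0
        · exact absurd rfl hij
        · exact ⟨ki, kj⟩
        · exact absurd rfl hj0
        · exact ⟨kj, ki⟩
        · exact absurd rfl hij
      have k1 := cb1 hBB.1
      have k2 := cb2 hBB.2
      subst k1 k2
      rw [add_zero] at s1 s2
      rw [Nat.odd_add] at g3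
      exact (Nat.not_odd_iff_even.2 (g3.1 s1)) s2

end Pool.Agent.H46.NCK
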